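import Pool.Agent.helper72.SF.SpecT

set_option autoImplicit false

namespace SF

open Pool.Agent.helper72.Sq AM Matrix

theorem T11_seq (L : ℕ → ℝ) (hm : Monotone L) (hf : ∀ R, {k : ℕ | L k ≤ R}.Finite) (u v C : ℝ)
    (h : ∀ k : ℕ, |u * √((k : ℝ) + 1) + v - L k| ≤ C) :
    ∃ b K : ℝ, ∀ R : ℝ, 1 ≤ R → |({k : ℕ | L k ≤ R}.ncard : ℝ) - b * R ^ 2| ≤ K * R := by
  have hC : 0 ≤ C := (abs_nonneg _).trans (h 0)
  have hu : 0 < u := by
    by_contra hu
    push Not at hu
    have hall : {k : ℕ | L k ≤ v + C} = Set.univ := by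
      ext k
      simp only [Set.mem_setOf_eq, Set.mem_univ, iff_true]
      have h1 := (abs_le.mp (h k)).1
      have h2 : u * √((k : ℝ) + 1) ≤ 0 := mul_nonpos_of_nonpos_of_nonneg hu (Real.sqrt_nonneg _)
      linarith
    have := hf (v + C)
    rw [hall] at this
    exact Set.infinite_univ this
  set D := C + |v| with hD
  have hD0 : 0 ≤ D := by positivity
  refine ⟨1 / u ^ 2, (2 * D + D ^ 2) / u ^ 2 + 1, ?_⟩
  intro R hR
  have hex : ∃ k, R < L k := by
    by_contra hne
    push Not at hne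
    have hall : {k : ℕ | L k ≤ R} = Set.univ := by
      ext k
      simp [hne k]
    have := hf R
    rw [hall] at this
    exact Set.infinite_univ this
  obtain ⟨n, hn, hmin⟩ : ∃ n, R < L n ∧ ∀ k < n, L k ≤ R := by
    classical
    exact ⟨Nat.find hex, Nat.find_spec hex, fun k hk => not_lt.mp (Nat.find_min hex hk)⟩
  have hS : {k : ℕ | L k ≤ R} = ((Finset.range n : Finset ℕ) : Set ℕ) := by
    ext k
    simp only [Set.mem_setOf_eq, Finset.coe_range, Set.mem_Iio]
    constructor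
    · intro hk
      by_contra hkn
      push Not at hkn
      have := hm hkn
      linarith
    · exact hmin k
  rw [hS, Set.ncard_coe_finset, Finset.card_range]
  have hu2 : 0 < u ^ 2 := by positivity
  have hv1 := le_abs_self v
  have hv2 := neg_abs_le v
  -- upper bound
  have hup : (n : ℝ) * u ^ 2 ≤ (R + D) ^ 2 := by
    rcases Nat.eq_zero_or_pos n with h0 | hpos
    · subst h0
      simp
      positivity
    · have h1 := hmin (n - 1) (by omega)
      have h2 := (abs_le.mp (h (n - 1))).2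
      have h3 : ((n - 1 : ℕ) : ℝ) + 1 = n := by
        rw [Nat.cast_sub (by omega)]
        simp
      rw [h3] at h2
      have h4 : u * √(n : ℝ) ≤ R + D := by linarith
      have h5 : (u * √(n : ℝ)) ^ 2 ≤ (R + D) ^ 2 := by
        apply pow_le_pow_left₀ (by positivity) h4
      rw [mul_pow, Real.sq_sqrt (by positivity)] at h5
      linarith
  have hlo : R - D ≤ u * √((n : ℝ) + 1) := by
    have h1 := (abs_le.mp (h n)).1
    linarith
  have hlo2 : R ^ 2 - 2 * D * R ≤ ((n : ℝ) + 1) * u ^ 2 := by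
    rcases le_or_gt D R with hc | hc
    · have h5 : (R - D) ^ 2 ≤ (u * √((n : ℝ) + 1)) ^ 2 := pow_le_pow_left₀ (by linarith) hlo 2
      rw [mul_pow, Real.sq_sqrt (by positivity)] at h5
      nlinarith [sq_nonneg D]
    · have : R ^ 2 - 2 * D * R ≤ 0 := by nlinarith
      have h6 : 0 ≤ ((n : ℝ) + 1) * u ^ 2 := by positivity
      linarith
  rw [abs_le]
  constructor
  · have h1 : (R ^ 2 - 2 * D * R) / u ^ 2 ≤ (n : ℝ) + 1 := by
      rw [div_le_iff₀ hu2]
      exact hlo2
    have h2 : (R ^ 2 - 2 * D * R) / u ^ 2 = 1 / u ^ 2 * R ^ 2 - 2 * D / u ^ 2 * R := by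
      field_simp
    have h3 : ((2 * D + D ^ 2) / u ^ 2 + 1) * R = 2 * D / u ^ 2 * R + D ^ 2 / u ^ 2 * R + R := by
      field_simp
    rw [h2] at h1
    rw [h3]
    have h4 : 0 ≤ D ^ 2 / u ^ 2 * R := by positivity
    linarith
  · have h1 : (n : ℝ) ≤ (R + D) ^ 2 / u ^ 2 := by
      rw [le_div_iff₀ hu2]
      exact hup
    have h2 : (R + D) ^ 2 / u ^ 2 = 1 / u ^ 2 * R ^ 2 + 2 * D / u ^ 2 * R + D ^ 2 / u ^ 2 := by
      field_simp
      ring
    have h3 : ((2 * D + D ^ 2) / u ^ 2 + 1) * R = 2 * D / u ^ 2 * R + D ^ 2 / u ^ 2 * R + R := by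
      field_simp
    rw [h2] at h1
    rw [h3]
    have h4 : D ^ 2 / u ^ 2 ≤ D ^ 2 / u ^ 2 * R := le_mul_of_one_le_right (by positivity) hR
    linarith

theorem T11 : T11_stmt := by
  intro ρ g hfin hWL
  obtain ⟨e, hmono, u, v, C, h⟩ := hWL
  have himg : ∀ R : ℝ, {x : orb g | cLen ρ x ≤ R} = e '' {k : ℕ | cLen ρ (e k) ≤ R} := by
    intro R
    ext x
    simp only [Set.mem_setOf_eq, Set.mem_image]
    constructor
    · intro hx
      exact ⟨e.symm x, by simpa using hx, by simp⟩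
    · rintro ⟨k, hk, rfl⟩
      exact hk
  have hf : ∀ R, {k : ℕ | cLen ρ (e k) ≤ R}.Finite := by
    intro R
    have h1 := hfin R
    rw [himg R] at h1
    exact h1.of_finite_image e.injective.injOn
  obtain ⟨b, K, hbK⟩ := T11_seq (fun k => cLen ρ (e k)) hmono hf u v C h
  refine ⟨b, K, fun R hR => ?_⟩
  rw [himg R, Set.ncard_image_of_injective _ e.injective]
  exact hbK R hR

end SF
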