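import Pool.Agent.helper1.SF.SpecA

set_option autoImplicit false

namespace SF

open Pool.Agent.helper72.Sq MeasureTheory Set
open scoped ContDiff

theorem MSC_eta_contDiff : ContDiff ℝ ∞ eta := by
  unfold eta
  exact Real.smoothTransition.contDiff.comp (by fun_prop)

theorem MSC_eta_one (u : ℝ) (hu : u ≤ 1 / 4) : eta u = 1 :=
  Real.smoothTransition.one_of_one_le (by linarith)

theorem MSC_eta_zero (u : ℝ) (hu : 1 / 2 ≤ u) : eta u = 0 :=
  Real.smoothTransition.zero_of_nonpos (by linarith)

/-- a C^1 function constant on an open half line has zero derivative on the closed half line -/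
theorem MSC_deriv_zero_left (f : ℝ → ℝ) (hf : Continuous (deriv f)) (c a : ℝ)
    (h : ∀ u ≤ a, f u = c) : ∀ u ≤ a, deriv f u = 0 := by
  have h1 : ∀ u < a, deriv f u = 0 := by
    intro u hu
    have : f =ᶠ[nhds u] fun _ => c := by
      filter_upwards [Iio_mem_nhds hu] with x hx
      exact h x (le_of_lt hx)
    rw [this.deriv_eq]
    simp
  intro u hu
  rcases lt_or_eq_of_le hu with h2 | h2
  · exact h1 u h2
  · subst h2
    have hcl : IsClosed {x : ℝ | deriv f x = 0} := isClosed_eq hf continuous_const
    have hsub : closure (Iio u) ⊆ {x : ℝ | deriv f x = 0} :=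
      closure_minimal (fun x hx => h1 x hx) hcl
    rw [closure_Iio] at hsub
    exact hsub (mem_Iic.mpr le_rfl)

theorem MSC_deriv_zero_right (f : ℝ → ℝ) (hf : Continuous (deriv f)) (c a : ℝ)
    (h : ∀ u, a ≤ u → f u = c) : ∀ u, a ≤ u → deriv f u = 0 := by
  have h1 : ∀ u, a < u → deriv f u = 0 := by
    intro u hu
    have : f =ᶠ[nhds u] fun _ => c := by
      filter_upwards [Ioi_mem_nhds hu] with x hx
      exact h x (le_of_lt hx)
    rw [this.deriv_eq]
    simp
  intro u hu
  rcases lt_or_eq_of_le hu with h2 | h2
  · exact h1 u h2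
  · subst h2
    have hcl : IsClosed {x : ℝ | deriv f x = 0} := isClosed_eq hf continuous_const
    have hsub : closure (Ioi a) ⊆ {x : ℝ | deriv f x = 0} :=
      closure_minimal (fun x hx => h1 x hx) hcl
    rw [closure_Ioi] at hsub
    exact hsub (mem_Ici.mpr le_rfl)

theorem MSC_deta_cont : Continuous (deriv eta) :=
  MSC_eta_contDiff.continuous_deriv (by simp)

theorem MSC_om_contDiff : ContDiff ℝ 1 om := by
  unfold om
  have h1 : ContDiff ℝ 1 eta := MSC_eta_contDiff.of_le (by simp)
  have h2 : ContDiff ℝ 1 (deriv eta) := by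
    have := MSC_eta_contDiff
    exact (contDiff_infty_iff_deriv.mp this).2.of_le (by simp)
  fun_prop

theorem MSC_om_left (v : ℝ) (hv : v ≤ 1 / 4) : om v = 1 / 2 := by
  unfold om
  rw [MSC_eta_one v hv, MSC_deriv_zero_left eta MSC_deta_cont 1 (1 / 4) MSC_eta_one v hv]
  ring

theorem MSC_om_right (v : ℝ) (hv : 1 / 2 ≤ v) : om v = 0 := by
  unfold om
  rw [MSC_eta_zero v hv, MSC_deriv_zero_right eta MSC_deta_cont 0 (1 / 2) MSC_eta_zero v hv]
  ring

theorem MSC_dom_cont : Continuous (deriv om) := MSC_om_contDiff.continuous_deriv (by simp)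

theorem MSC_dom_left (v : ℝ) (hv : v ≤ 1 / 4) : deriv om v = 0 :=
  MSC_deriv_zero_left om MSC_dom_cont (1 / 2) (1 / 4) MSC_om_left v hv

theorem MSC_dom_right (v : ℝ) (hv : 1 / 2 ≤ v) : deriv om v = 0 :=
  MSC_deriv_zero_right om MSC_dom_cont 0 (1 / 2) MSC_om_right v hv

theorem MSC_bounds : ∃ M : ℝ, 0 < M ∧ (∀ v, |om v| ≤ M) ∧ ∀ v, |deriv om v| ≤ M := by
  obtain ⟨A, hA⟩ := (isCompact_Icc (a := (1 / 4 : ℝ)) (b := 1 / 2)).exists_bound_of_continuousOn
    MSC_om_contDiff.continuous.continuousOn
  obtain ⟨B, hB⟩ := (isCompact_Icc (a := (1 / 4 : ℝ)) (b := 1 / 2)).exists_bound_of_continuousOn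
    MSC_dom_cont.continuousOn
  refine ⟨|A| + |B| + 1, by positivity, ?_, ?_⟩
  · intro v
    rcases le_or_gt v (1 / 4) with h | h
    · rw [MSC_om_left v h, abs_of_pos (by norm_num)]
      have := abs_nonneg A
      have := abs_nonneg B
      linarith
    · rcases le_or_gt (1 / 2) v with h2 | h2
      · rw [MSC_om_right v h2]
        simp
        positivity
      · have := hA v ⟨h.le, h2.le⟩
        rw [Real.norm_eq_abs] at this
        have := le_abs_self A
        have := abs_nonneg B
        linarith
  · intro v
    rcases le_or_gt v (1 / 4) with h | h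
    · rw [MSC_dom_left v h]
      simp
      positivity
    · rcases le_or_gt (1 / 2) v with h2 | h2
      · rw [MSC_dom_right v h2]
        simp
        positivity
      · have := hB v ⟨h.le, h2.le⟩
        rw [Real.norm_eq_abs] at this
        have := le_abs_self B
        have := abs_nonneg A
        linarith

theorem MSC_w_int : IntervalIntegrable (fun t : ℝ => 1 / √(t * (1 - t))) volume 0 1 := by
  have h1 : IntervalIntegrable (fun t : ℝ => t ^ (-(1 / 2) : ℝ)) volume 0 1 :=
    intervalIntegral.intervalIntegrable_rpow' (by norm_num)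
  have h2 : IntervalIntegrable (fun t : ℝ => (1 - t) ^ (-(1 / 2) : ℝ)) volume 0 1 := by
    have := (h1.comp_sub_left 1).symm
    simpa using this
  refine (h1.add h2).mono_fun ?_ ?_
  · apply Measurable.aestronglyMeasurable
    fun_prop
  · rw [Filter.EventuallyLE, ae_restrict_iff' measurableSet_uIoc]
    refine Filter.Eventually.of_forall (fun t ht => ?_)
    rw [uIoc_of_le (by norm_num)] at ht
    have ht0 : 0 < t := ht.1
    have ht1 : t ≤ 1 := ht.2
    rcases eq_or_lt_of_le ht1 with h | h
    · subst h
      simp
    · have hs : 0 < 1 - t := by linarith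
      have e1 : t ^ (-(1 / 2) : ℝ) = 1 / √t := by
        rw [Real.rpow_neg ht0.le, ← Real.sqrt_eq_rpow, one_div]
      have e2 : (1 - t) ^ (-(1 / 2) : ℝ) = 1 / √(1 - t) := by
        rw [Real.rpow_neg hs.le, ← Real.sqrt_eq_rpow, one_div]
      rw [e1, e2, Real.norm_eq_abs, Real.norm_eq_abs, abs_of_nonneg (by positivity),
        abs_of_nonneg (by positivity), Real.sqrt_mul ht0.le]
      have hst : 0 < √t := Real.sqrt_pos.mpr ht0
      have hss : 0 < √(1 - t) := Real.sqrt_pos.mpr hs
      have hle : 1 ≤ √(1 - t) + √t := by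
        have h3 : √(1 - t) * √(1 - t) = 1 - t := Real.mul_self_sqrt hs.le
        have h4 : √t * √t = t := Real.mul_self_sqrt ht0.le
        nlinarith [mul_pos hst hss]
      rw [div_add_div _ _ hst.ne' hss.ne', div_le_div_iff_of_pos_right (by positivity)]
      linarith

theorem MSC : MSC_stmt := by
  obtain ⟨M, hM, hom, hdom⟩ := MSC_bounds
  set W : ℝ := ∫ t in (0 : ℝ)..1, 1 / √(t * (1 - t)) with hW
  have hW0 : 0 ≤ W := intervalIntegral.integral_nonneg (by norm_num) (fun t _ => by positivity)
  have hder : ∀ σ : ℝ, 0 < σ → IntervalIntegrable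
      (fun t : ℝ => deriv om (σ * t) * t / √(t * (1 - t))) volume 0 1 ∧
      HasDerivAt Th (∫ t in (0 : ℝ)..1, deriv om (σ * t) * t / √(t * (1 - t))) σ := by
    intro σ _
    unfold Th
    refine intervalIntegral.hasDerivAt_integral_of_dominated_loc_of_deriv_le
      (F := fun σ t => om (σ * t) / √(t * (1 - t)))
      (F' := fun σ t => deriv om (σ * t) * t / √(t * (1 - t)))
      (bound := fun t => M * (1 / √(t * (1 - t)))) (s := univ) Filter.univ_mem ?_ ?_ ?_ ?_ ?_ ?_
    · refine Filter.Eventually.of_forall (fun x => ?_)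
      have h1 : Measurable (fun t : ℝ => om (x * t)) :=
        (MSC_om_contDiff.continuous.comp (continuous_const.mul continuous_id)).measurable
      apply Measurable.aestronglyMeasurable
      exact h1.div (by fun_prop)
    · have h1 : Measurable (fun t : ℝ => om (σ * t)) :=
        (MSC_om_contDiff.continuous.comp (continuous_const.mul continuous_id)).measurable
      refine (MSC_w_int.const_mul M).mono_fun ?_ ?_
      · apply Measurable.aestronglyMeasurable
        exact h1.div (by fun_prop)
      · refine Filter.Eventually.of_forall (fun t => ?_)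
        show ‖om (σ * t) / √(t * (1 - t))‖ ≤ ‖M * (1 / √(t * (1 - t)))‖
        rw [norm_div, norm_mul, norm_div]
        simp only [Real.norm_eq_abs, abs_one]
        rw [← mul_div_assoc, mul_one]
        exact div_le_div_of_nonneg_right ((hom _).trans (le_abs_self M)) (abs_nonneg _)
    · have h1 : Measurable (fun t : ℝ => deriv om (σ * t)) :=
        (MSC_dom_cont.comp (continuous_const.mul continuous_id)).measurable
      apply Measurable.aestronglyMeasurable
      exact (h1.mul measurable_id).div (by fun_prop)
    · refine Filter.Eventually.of_forall (fun t ht x _ => ?_)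
      rw [uIoc_of_le (by norm_num)] at ht
      rw [norm_div, norm_mul]
      simp only [Real.norm_eq_abs]
      rw [abs_of_nonneg (Real.sqrt_nonneg _), ← mul_div_assoc, mul_one]
      gcongr
      rw [abs_of_pos ht.1]
      calc |deriv om (x * t)| * t ≤ M * 1 := by
            apply mul_le_mul (hdom _) ht.2 ht.1.le hM.le
        _ = M := mul_one M
    · exact MSC_w_int.const_mul M
    · refine Filter.Eventually.of_forall (fun t _ x _ => ?_)
      have h1 : HasDerivAt om (deriv om (x * t)) (x * t) :=
        (MSC_om_contDiff.differentiable (by simp)).differentiableAt.hasDerivAt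
      have h2 : HasDerivAt (fun y : ℝ => y * t) t x := by
        simpa using (hasDerivAt_id x).mul_const t
      have h3 := h1.comp x h2
      exact h3.div_const _
  refine ⟨M * W + M + 1, by positivity, ?_⟩
  intro σ hσ
  obtain ⟨hint, hd⟩ := hder σ hσ
  have hb1 : |deriv Th σ| ≤ M * W := by
    rw [hd.deriv, hW, ← intervalIntegral.integral_const_mul, ← Real.norm_eq_abs]
    refine intervalIntegral.norm_integral_le_of_norm_le (by norm_num) ?_ (MSC_w_int.const_mul M)
    refine Filter.Eventually.of_forall (fun t ht => ?_)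
    rw [norm_div, norm_mul]
    simp only [Real.norm_eq_abs]
    rw [abs_of_nonneg (Real.sqrt_nonneg _), ← mul_div_assoc, mul_one]
    gcongr
    rw [abs_of_pos ht.1]
    calc |deriv om (σ * t)| * t ≤ M * 1 := by
          apply mul_le_mul (hdom _) ht.2 ht.1.le hM.le
      _ = M := mul_one M
  refine ⟨hd.differentiableAt, ?_, ?_, ?_⟩
  · have h1 : |Th σ| ≤ M * W := by
      unfold Th
      rw [hW, ← intervalIntegral.integral_const_mul, ← Real.norm_eq_abs]
      refine intervalIntegral.norm_integral_le_of_norm_le (by norm_num) ?_ (MSC_w_int.const_mul M)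
      refine Filter.Eventually.of_forall (fun t ht => ?_)
      rw [norm_div]
      simp only [Real.norm_eq_abs]
      rw [abs_of_nonneg (Real.sqrt_nonneg _), ← mul_div_assoc, mul_one]
      gcongr
      exact hom _
    linarith
  · linarith
  · rcases le_or_gt σ 1 with hs | hs
    · have h1 : σ * √σ ≤ 1 := by
        have : √σ ≤ 1 := Real.sqrt_le_one.mpr hs
        calc σ * √σ ≤ 1 * 1 := mul_le_mul hs this (Real.sqrt_nonneg _) (by norm_num)
          _ = 1 := one_mul 1
      have h2 : 0 < σ * √σ := by positivity
      rw [le_div_iff₀ h2]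
      calc |deriv Th σ| * (σ * √σ) ≤ (M * W) * 1 := by
            apply mul_le_mul hb1 h1 h2.le (by positivity)
        _ ≤ M * W + M + 1 := by linarith
    · have hss : 0 < √σ := Real.sqrt_pos.mpr hσ
      have ha0 : 0 < 1 / (2 * σ) := by positivity
      have ha1 : 1 / (2 * σ) ≤ 1 / 2 := by
        rw [div_le_div_iff₀ (by positivity) (by norm_num)]
        linarith
      have hi1 : IntervalIntegrable (fun t : ℝ => deriv om (σ * t) * t / √(t * (1 - t))) volume
          0 (1 / (2 * σ)) :=
        hint.mono_set (by
          rw [uIcc_of_le ha0.le, uIcc_of_le (by norm_num)]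
          exact Icc_subset_Icc le_rfl (by linarith))
      have hi2 : IntervalIntegrable (fun t : ℝ => deriv om (σ * t) * t / √(t * (1 - t))) volume
          (1 / (2 * σ)) 1 :=
        hint.mono_set (by
          rw [uIcc_of_le (by linarith), uIcc_of_le (by norm_num)]
          exact Icc_subset_Icc ha0.le le_rfl)
      have hz : ∫ t in (1 / (2 * σ))..1, deriv om (σ * t) * t / √(t * (1 - t)) = 0 := by
        rw [← intervalIntegral.integral_zero (a := 1 / (2 * σ)) (b := 1) (μ := volume)]
        apply intervalIntegral.integral_congr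
        intro t ht
        rw [uIcc_of_le (by linarith)] at ht
        have h1 : 1 / 2 ≤ σ * t := by
          have := mul_le_mul_of_nonneg_left ht.1 hσ.le
          have h3 : σ * (1 / (2 * σ)) = 1 / 2 := by field_simp
          linarith
        simp only
        rw [MSC_dom_right _ h1]
        simp
      rw [hd.deriv, ← intervalIntegral.integral_add_adjacent_intervals hi1 hi2, hz, add_zero,
        ← Real.norm_eq_abs]
      have hbd : ∀ t ∈ uIoc 0 (1 / (2 * σ)),
          ‖deriv om (σ * t) * t / √(t * (1 - t))‖ ≤ M * (1 / √σ) := by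
        intro t ht
        rw [uIoc_of_le ha0.le] at ht
        have ht0 : 0 < t := ht.1
        have ht2 : t ≤ 1 / 2 := ht.2.trans ha1
        have hs2 : 0 < 1 - t := by linarith
        rw [norm_div, norm_mul]
        simp only [Real.norm_eq_abs]
        rw [abs_of_nonneg (Real.sqrt_nonneg _), abs_of_pos ht0, mul_div_assoc]
        apply mul_le_mul (hdom _) ?_ (by positivity) hM.le
        rw [div_le_div_iff₀ (Real.sqrt_pos.mpr (by positivity)) hss, one_mul]
        apply Real.le_sqrt_of_sq_le
        rw [mul_pow, Real.sq_sqrt hσ.le]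
        have h3 : t * (2 * σ) ≤ 1 := by
          have := ht.2
          rwa [le_div_iff₀ (by positivity)] at this
        nlinarith
      refine (intervalIntegral.norm_integral_le_of_norm_le_const hbd).trans ?_
      rw [sub_zero, abs_of_pos ha0]
      have h5 : M * (1 / √σ) * (1 / (2 * σ)) = M / 2 / (σ * √σ) := by
        field_simp
      rw [h5]
      gcongr
      have : 0 ≤ M * W := by positivity
      linarith

end SF
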